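import Pool.Agent.H773.CS.Stm

/-!
Project CS (helper773), task INJ: few tuples of blocks have repeated variables.
-/

set_option autoImplicit false
set_option linter.unusedVariables false

open Finset

namespace Pool.Agent.H100.CS

open Pool.Agent.H773.CS

/-- double counting with one coordinate -/
theorem lens {Ω T : Type} [Fintype Ω] [Fintype T] (get : Ω → T) (set : Ω → T → Ω)
    (h1 : ∀ b t, get (set b t) = t) (h2 : ∀ b t t', set (set b t) t' = set b t')
    (h3 : ∀ b, set b (get b) = b) (Q : Ω → Prop) [DecidablePred Q] (M K : ℕ)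
    (hQ : ∀ b, (univ.filter fun t => Q (set b t)).card * M ≤ K) :
    (univ.filter Q).card * Fintype.card T * M ≤ K * Fintype.card Ω := by
  classical
  have e1 : (univ.filter Q).card * Fintype.card T =
      (univ.filter fun p : Ω × T => Q (set p.1 p.2)).card := by
    rw [← card_univ (α := T), ← card_product]
    refine card_bij' (fun p _ => (set p.1 p.2, get p.1)) (fun p _ => (set p.1 p.2, get p.1)) ?_ ?_ ?_ ?_
    · rintro ⟨b, t⟩ hp
      have hb := (mem_filter.mp (mem_product.mp hp).1).2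
      refine mem_filter.mpr ⟨mem_univ _, ?_⟩
      show Q (set (set b t) (get b))
      rw [h2, h3]
      exact hb
    · rintro ⟨b, t⟩ hp
      exact mem_product.mpr ⟨mem_filter.mpr ⟨mem_univ _, (mem_filter.mp hp).2⟩, mem_univ _⟩
    · rintro ⟨b, t⟩ _
      exact Prod.ext (by rw [h2, h3]) (h1 b t)
    · rintro ⟨b, t⟩ _
      exact Prod.ext (by rw [h2, h3]) (h1 b t)
  have e2 : (univ.filter fun p : Ω × T => Q (set p.1 p.2)).card =
      ∑ b : Ω, (univ.filter fun t => Q (set b t)).card := by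
    rw [card_filter, Fintype.sum_prod_type]
    refine sum_congr rfl fun b _ => ?_
    rw [card_filter]
  rw [e1, e2, sum_mul]
  refine (sum_le_sum fun b _ => hQ b).trans (le_of_eq ?_)
  rw [sum_const, card_univ, smul_eq_mul, mul_comm]

open Classical in
/-- a property of few blocks -/
def Few (P : ℕ) [NeZero P] (Q : Blk P → Prop) : Prop :=
  (univ.filter Q).card * P ≤ 2 * Fintype.card (Blk P)

theorem card_le_two_aux {T : Type} [Fintype T] [DecidableEq T] (Q : T → Prop) [DecidablePred Q]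
    (t0 t1 : T) (h : ∀ t, Q t → t = t0 ∨ t = t1) : (univ.filter Q).card ≤ 2 := by
  refine (card_le_card (t := {t0, t1}) fun t ht => ?_).trans card_le_two
  rw [mem_insert, mem_singleton]
  exact h t (mem_filter.mp ht).2

theorem few_of_lens {P : ℕ} [NeZero P] (get : Blk P → ZMod P) (set : Blk P → ZMod P → Blk P)
    (h1 : ∀ b t, get (set b t) = t) (h2 : ∀ b t t', set (set b t) t' = set b t')
    (h3 : ∀ b, set b (get b) = b) (Q : Blk P → Prop)
    (hQ : ∀ b, ∃ t0 t1 : ZMod P, ∀ t, Q (set b t) → t = t0 ∨ t = t1) : Few P Q := by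
  classical
  have h := lens get set h1 h2 h3 Q 1 2 (fun b => by
    obtain ⟨t0, t1, ht⟩ := hQ b
    rw [mul_one]
    exact card_le_two_aux (fun t => Q (set b t)) t0 t1 ht)
  rw [mul_one, ZMod.card] at h
  unfold Few
  refine le_trans (le_of_eq ?_) h
  congr 2

theorem L_y {P : ℕ} [NeZero P] (Q : Blk P → Prop)
    (hQ : ∀ b : Blk P, ∃ t0 t1 : ZMod P, ∀ t, Q ((t, b.1.2), b.2) → t = t0 ∨ t = t1) : Few P Q :=
  few_of_lens (fun b => b.1.1) (fun b t => ((t, b.1.2), b.2)) (fun _ _ => rfl) (fun _ _ _ => rfl)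
    (fun _ => rfl) Q hQ

theorem L_1 {P : ℕ} [NeZero P] (Q : Blk P → Prop)
    (hQ : ∀ b : Blk P, ∃ t0 t1 : ZMod P, ∀ t, Q (b.1, (t, b.2.1.2), b.2.2) → t = t0 ∨ t = t1) :
    Few P Q :=
  few_of_lens (fun b => b.2.1.1) (fun b t => (b.1, (t, b.2.1.2), b.2.2)) (fun _ _ => rfl)
    (fun _ _ _ => rfl) (fun _ => rfl) Q hQ

theorem L_2 {P : ℕ} [NeZero P] (Q : Blk P → Prop)
    (hQ : ∀ b : Blk P, ∃ t0 t1 : ZMod P, ∀ t,
      Q (b.1, b.2.1, (t, b.2.2.1.2), b.2.2.2) → t = t0 ∨ t = t1) : Few P Q :=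
  few_of_lens (fun b => b.2.2.1.1) (fun b t => (b.1, b.2.1, (t, b.2.2.1.2), b.2.2.2))
    (fun _ _ => rfl) (fun _ _ _ => rfl) (fun _ => rfl) Q hQ

theorem L_p {P : ℕ} [NeZero P] (Q : Blk P → Prop)
    (hQ : ∀ b : Blk P, ∃ t0 t1 : ZMod P, ∀ t,
      Q (b.1, b.2.1, b.2.2.1, (t, b.2.2.2.2)) → t = t0 ∨ t = t1) : Few P Q :=
  few_of_lens (fun b => b.2.2.2.1) (fun b t => (b.1, b.2.1, b.2.2.1, (t, b.2.2.2.2)))
    (fun _ _ => rfl) (fun _ _ _ => rfl) (fun _ => rfl) Q hQ

theorem add_eq_right_aux {P : ℕ} {t y : ZMod P} (h : y = t + y) : t = 0 := by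
  have := congrArg (fun z => z - y) h
  simp only [sub_self, add_sub_cancel_right] at this
  exact this.symm

theorem add_eq_left_aux {P : ℕ} {x t : ZMod P} (h : x = x + t) : t = 0 := by
  have := congrArg (fun z => z - x) h
  simp only [sub_self, add_sub_cancel_left] at this
  exact this.symm

theorem zf_val {P : ℕ} [NeZero P] (t : ZMod P) : (zf t).val = t.val / 2 := by
  unfold zf
  apply ZMod.val_natCast_of_lt
  have := ZMod.val_lt t
  omega

theorem rf_val {P : ℕ} [NeZero P] (t : ZMod P) : (rf t).val = (t.val + P) / 2 := by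
  unfold rf
  apply ZMod.val_natCast_of_lt
  have := ZMod.val_lt t
  omega

theorem zf_eq {P : ℕ} [NeZero P] {t v : ZMod P} (h : zf t = v) :
    t = ((2 * v.val : ℕ) : ZMod P) ∨ t = ((2 * v.val + 1 : ℕ) : ZMod P) := by
  have h1 := congrArg ZMod.val h
  rw [zf_val] at h1
  have h2 : t.val = 2 * v.val ∨ t.val = 2 * v.val + 1 := by omega
  rcases h2 with h2 | h2
  · left; rw [← h2]; exact (ZMod.natCast_zmod_val t).symm
  · right; rw [← h2]; exact (ZMod.natCast_zmod_val t).symm

theorem rf_eq {P : ℕ} [NeZero P] {t v : ZMod P} (h : rf t = v) :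
    t = ((2 * v.val : ℕ) : ZMod P) ∨ t = ((2 * v.val + 1 : ℕ) : ZMod P) := by
  have h1 := congrArg ZMod.val h
  rw [rf_val] at h1
  have h2 : t.val + P = 2 * v.val ∨ t.val + P = 2 * v.val + 1 := by omega
  have h3 : t = ((t.val + P : ℕ) : ZMod P) := by
    rw [Nat.cast_add, ZMod.natCast_self, add_zero]
    exact (ZMod.natCast_zmod_val t).symm
  rcases h2 with h2 | h2
  · left; rw [← h2]; exact h3
  · right; rw [← h2]; exact h3

theorem zf_ne_rf {P : ℕ} [NeZero P] (hP : 3 ≤ P) (t : ZMod P) : zf t ≠ rf t := by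
  intro h
  have h1 := congrArg ZMod.val h
  rw [zf_val, rf_val] at h1
  omega

theorem zf_self {P : ℕ} [NeZero P] {t : ZMod P} (h : zf t = t) : t = 0 := by
  have h1 := congrArg ZMod.val h
  rw [zf_val] at h1
  rw [← ZMod.val_eq_zero]
  omega

theorem rf_self {P : ℕ} [NeZero P] {t : ZMod P} (h : rf t = t) : t = ((P - 1 : ℕ) : ZMod P) := by
  have h1 := congrArg ZMod.val h
  rw [rf_val] at h1
  have h2 := ZMod.val_lt t
  have h3 : t.val = P - 1 := by omega
  rw [← h3]
  exact (ZMod.natCast_zmod_val t).symm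

/-! ### one role, fixed value -/

theorem v0 (P : ℕ) [NeZero P] (v : ZMod P × Bool) : Few P (fun b : Blk P => bvar b 0 = v) :=
  L_y _ fun b => ⟨v.1, v.1, fun t h => Or.inl (congrArg Prod.fst h)⟩

theorem v1 (P : ℕ) [NeZero P] (v : ZMod P × Bool) : Few P (fun b : Blk P => bvar b 1 = v) :=
  L_1 _ fun b => ⟨v.1, v.1, fun t h => Or.inl (congrArg Prod.fst h)⟩

theorem v2 (P : ℕ) [NeZero P] (v : ZMod P × Bool) : Few P (fun b : Blk P => bvar b 2 = v) :=
  L_1 _ fun b => ⟨v.1 - b.1.1, v.1 - b.1.1, fun t h =>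
    Or.inl (eq_sub_of_add_eq (congrArg Prod.fst h))⟩

theorem v3 (P : ℕ) [NeZero P] (v : ZMod P × Bool) : Few P (fun b : Blk P => bvar b 3 = v) :=
  L_2 _ fun b => ⟨v.1, v.1, fun t h => Or.inl (congrArg Prod.fst h)⟩

theorem v4 (P : ℕ) [NeZero P] (v : ZMod P × Bool) : Few P (fun b : Blk P => bvar b 4 = v) :=
  L_2 _ fun b => ⟨v.1 - b.1.1, v.1 - b.1.1, fun t h =>
    Or.inl (eq_sub_of_add_eq (congrArg Prod.fst h))⟩

theorem v5 (P : ℕ) [NeZero P] (v : ZMod P × Bool) : Few P (fun b : Blk P => bvar b 5 = v) :=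
  L_p _ fun b => ⟨_, _, fun t h => zf_eq (v := v.1) (congrArg Prod.fst h)⟩

theorem v6 (P : ℕ) [NeZero P] (v : ZMod P × Bool) : Few P (fun b : Blk P => bvar b 6 = v) :=
  L_p _ fun b => ⟨_, _, fun t h => zf_eq (v := v.1) (congrArg Prod.fst h)⟩

theorem v7 (P : ℕ) [NeZero P] (v : ZMod P × Bool) : Few P (fun b : Blk P => bvar b 7 = v) :=
  L_p _ fun b => ⟨_, _, fun t h => rf_eq (v := v.1) (congrArg Prod.fst h)⟩

theorem v8 (P : ℕ) [NeZero P] (v : ZMod P × Bool) : Few P (fun b : Blk P => bvar b 8 = v) :=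
  L_p _ fun b => ⟨_, _, fun t h => rf_eq (v := v.1) (congrArg Prod.fst h)⟩

theorem v9 (P : ℕ) [NeZero P] (v : ZMod P × Bool) : Few P (fun b : Blk P => bvar b 9 = v) :=
  L_p _ fun b => ⟨v.1, v.1, fun t h => Or.inl (congrArg Prod.fst h)⟩

theorem v_all (P : ℕ) [NeZero P] (v : ZMod P × Bool) (r : Fin 10) :
    Few P (fun b : Blk P => bvar b r = v) := by
  fin_cases r
  · exact v0 P v
  · exact v1 P v
  · exact v2 P v
  · exact v3 P v
  · exact v4 P v
  · exact v5 P v
  · exact v6 P v
  · exact v7 P v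
  · exact v8 P v
  · exact v9 P v

/-! ### two roles of one block -/

theorem few_false {P : ℕ} [NeZero P] (Q : Blk P → Prop) (h : ∀ b, ¬ Q b) : Few P Q :=
  L_y Q fun _ => ⟨0, 0, fun _ hh => absurd hh (h _)⟩

theorem c01 (P : ℕ) [NeZero P] : Few P (fun b : Blk P => bvar b 0 = bvar b 1) :=
  L_y _ fun b => ⟨b.2.1.1, b.2.1.1, fun t h => Or.inl (by
    have h := congrArg Prod.fst h
    exact h)⟩

theorem c02 (P : ℕ) [NeZero P] : Few P (fun b : Blk P => bvar b 0 = bvar b 2) :=
  L_1 _ fun b => ⟨0, 0, fun t h => Or.inl (by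
    have h := congrArg Prod.fst h
    exact add_eq_right_aux h)⟩

theorem c03 (P : ℕ) [NeZero P] : Few P (fun b : Blk P => bvar b 0 = bvar b 3) :=
  L_y _ fun b => ⟨b.2.2.1.1, b.2.2.1.1, fun t h => Or.inl (by
    have h := congrArg Prod.fst h
    exact h)⟩

theorem c04 (P : ℕ) [NeZero P] : Few P (fun b : Blk P => bvar b 0 = bvar b 4) :=
  L_2 _ fun b => ⟨0, 0, fun t h => Or.inl (by
    have h := congrArg Prod.fst h
    exact add_eq_right_aux h)⟩

theorem c05 (P : ℕ) [NeZero P] : Few P (fun b : Blk P => bvar b 0 = bvar b 5) :=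
  L_y _ fun b => ⟨zf b.2.2.2.1, zf b.2.2.2.1, fun t h => Or.inl (by
    have h := congrArg Prod.fst h
    exact h)⟩

theorem c06 (P : ℕ) [NeZero P] : Few P (fun b : Blk P => bvar b 0 = bvar b 6) :=
  L_y _ fun b => ⟨zf b.2.2.2.1, zf b.2.2.2.1, fun t h => Or.inl (by
    have h := congrArg Prod.fst h
    exact h)⟩

theorem c07 (P : ℕ) [NeZero P] : Few P (fun b : Blk P => bvar b 0 = bvar b 7) :=
  L_y _ fun b => ⟨rf b.2.2.2.1, rf b.2.2.2.1, fun t h => Or.inl (by
    have h := congrArg Prod.fst h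
    exact h)⟩

theorem c08 (P : ℕ) [NeZero P] : Few P (fun b : Blk P => bvar b 0 = bvar b 8) :=
  L_y _ fun b => ⟨rf b.2.2.2.1, rf b.2.2.2.1, fun t h => Or.inl (by
    have h := congrArg Prod.fst h
    exact h)⟩

theorem c09 (P : ℕ) [NeZero P] : Few P (fun b : Blk P => bvar b 0 = bvar b 9) :=
  L_y _ fun b => ⟨b.2.2.2.1, b.2.2.2.1, fun t h => Or.inl (by
    have h := congrArg Prod.fst h
    exact h)⟩

theorem c12 (P : ℕ) [NeZero P] : Few P (fun b : Blk P => bvar b 1 = bvar b 2) :=
  L_y _ fun b => ⟨0, 0, fun t h => Or.inl (by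
    have h := congrArg Prod.fst h
    exact add_eq_left_aux h)⟩

theorem c13 (P : ℕ) [NeZero P] : Few P (fun b : Blk P => bvar b 1 = bvar b 3) :=
  L_1 _ fun b => ⟨b.2.2.1.1, b.2.2.1.1, fun t h => Or.inl (by
    have h := congrArg Prod.fst h
    exact h)⟩

theorem c14 (P : ℕ) [NeZero P] : Few P (fun b : Blk P => bvar b 1 = bvar b 4) :=
  L_1 _ fun b => ⟨(b.2.2.1.1 + b.1.1), (b.2.2.1.1 + b.1.1), fun t h => Or.inl (by
    have h := congrArg Prod.fst h
    exact h)⟩

theorem c15 (P : ℕ) [NeZero P] : Few P (fun b : Blk P => bvar b 1 = bvar b 5) :=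
  L_1 _ fun b => ⟨zf b.2.2.2.1, zf b.2.2.2.1, fun t h => Or.inl (by
    have h := congrArg Prod.fst h
    exact h)⟩

theorem c16 (P : ℕ) [NeZero P] : Few P (fun b : Blk P => bvar b 1 = bvar b 6) :=
  L_1 _ fun b => ⟨zf b.2.2.2.1, zf b.2.2.2.1, fun t h => Or.inl (by
    have h := congrArg Prod.fst h
    exact h)⟩

theorem c17 (P : ℕ) [NeZero P] : Few P (fun b : Blk P => bvar b 1 = bvar b 7) :=
  L_1 _ fun b => ⟨rf b.2.2.2.1, rf b.2.2.2.1, fun t h => Or.inl (by
    have h := congrArg Prod.fst h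
    exact h)⟩

theorem c18 (P : ℕ) [NeZero P] : Few P (fun b : Blk P => bvar b 1 = bvar b 8) :=
  L_1 _ fun b => ⟨rf b.2.2.2.1, rf b.2.2.2.1, fun t h => Or.inl (by
    have h := congrArg Prod.fst h
    exact h)⟩

theorem c19 (P : ℕ) [NeZero P] : Few P (fun b : Blk P => bvar b 1 = bvar b 9) :=
  L_1 _ fun b => ⟨b.2.2.2.1, b.2.2.2.1, fun t h => Or.inl (by
    have h := congrArg Prod.fst h
    exact h)⟩

theorem c23 (P : ℕ) [NeZero P] : Few P (fun b : Blk P => bvar b 2 = bvar b 3) :=
  L_1 _ fun b => ⟨(b.2.2.1.1 - b.1.1), (b.2.2.1.1 - b.1.1), fun t h => Or.inl (by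
    have h := congrArg Prod.fst h
    exact eq_sub_of_add_eq h)⟩

theorem c24 (P : ℕ) [NeZero P] : Few P (fun b : Blk P => bvar b 2 = bvar b 4) :=
  L_1 _ fun b => ⟨b.2.2.1.1, b.2.2.1.1, fun t h => Or.inl (by
    have h := congrArg Prod.fst h
    exact add_right_cancel h)⟩

theorem c25 (P : ℕ) [NeZero P] : Few P (fun b : Blk P => bvar b 2 = bvar b 5) :=
  L_1 _ fun b => ⟨(zf b.2.2.2.1 - b.1.1), (zf b.2.2.2.1 - b.1.1), fun t h => Or.inl (by
    have h := congrArg Prod.fst h
    exact eq_sub_of_add_eq h)⟩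

theorem c26 (P : ℕ) [NeZero P] : Few P (fun b : Blk P => bvar b 2 = bvar b 6) :=
  L_1 _ fun b => ⟨(zf b.2.2.2.1 - b.1.1), (zf b.2.2.2.1 - b.1.1), fun t h => Or.inl (by
    have h := congrArg Prod.fst h
    exact eq_sub_of_add_eq h)⟩

theorem c27 (P : ℕ) [NeZero P] : Few P (fun b : Blk P => bvar b 2 = bvar b 7) :=
  L_1 _ fun b => ⟨(rf b.2.2.2.1 - b.1.1), (rf b.2.2.2.1 - b.1.1), fun t h => Or.inl (by
    have h := congrArg Prod.fst h
    exact eq_sub_of_add_eq h)⟩

theorem c28 (P : ℕ) [NeZero P] : Few P (fun b : Blk P => bvar b 2 = bvar b 8) :=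
  L_1 _ fun b => ⟨(rf b.2.2.2.1 - b.1.1), (rf b.2.2.2.1 - b.1.1), fun t h => Or.inl (by
    have h := congrArg Prod.fst h
    exact eq_sub_of_add_eq h)⟩

theorem c29 (P : ℕ) [NeZero P] : Few P (fun b : Blk P => bvar b 2 = bvar b 9) :=
  L_1 _ fun b => ⟨(b.2.2.2.1 - b.1.1), (b.2.2.2.1 - b.1.1), fun t h => Or.inl (by
    have h := congrArg Prod.fst h
    exact eq_sub_of_add_eq h)⟩

theorem c34 (P : ℕ) [NeZero P] : Few P (fun b : Blk P => bvar b 3 = bvar b 4) :=
  L_y _ fun b => ⟨0, 0, fun t h => Or.inl (by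
    have h := congrArg Prod.fst h
    exact add_eq_left_aux h)⟩

theorem c35 (P : ℕ) [NeZero P] : Few P (fun b : Blk P => bvar b 3 = bvar b 5) :=
  L_2 _ fun b => ⟨zf b.2.2.2.1, zf b.2.2.2.1, fun t h => Or.inl (by
    have h := congrArg Prod.fst h
    exact h)⟩

theorem c36 (P : ℕ) [NeZero P] : Few P (fun b : Blk P => bvar b 3 = bvar b 6) :=
  L_2 _ fun b => ⟨zf b.2.2.2.1, zf b.2.2.2.1, fun t h => Or.inl (by
    have h := congrArg Prod.fst h
    exact h)⟩

theorem c37 (P : ℕ) [NeZero P] : Few P (fun b : Blk P => bvar b 3 = bvar b 7) :=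
  L_2 _ fun b => ⟨rf b.2.2.2.1, rf b.2.2.2.1, fun t h => Or.inl (by
    have h := congrArg Prod.fst h
    exact h)⟩

theorem c38 (P : ℕ) [NeZero P] : Few P (fun b : Blk P => bvar b 3 = bvar b 8) :=
  L_2 _ fun b => ⟨rf b.2.2.2.1, rf b.2.2.2.1, fun t h => Or.inl (by
    have h := congrArg Prod.fst h
    exact h)⟩

theorem c39 (P : ℕ) [NeZero P] : Few P (fun b : Blk P => bvar b 3 = bvar b 9) :=
  L_2 _ fun b => ⟨b.2.2.2.1, b.2.2.2.1, fun t h => Or.inl (by
    have h := congrArg Prod.fst h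
    exact h)⟩

theorem c45 (P : ℕ) [NeZero P] : Few P (fun b : Blk P => bvar b 4 = bvar b 5) :=
  L_2 _ fun b => ⟨(zf b.2.2.2.1 - b.1.1), (zf b.2.2.2.1 - b.1.1), fun t h => Or.inl (by
    have h := congrArg Prod.fst h
    exact eq_sub_of_add_eq h)⟩

theorem c46 (P : ℕ) [NeZero P] : Few P (fun b : Blk P => bvar b 4 = bvar b 6) :=
  L_2 _ fun b => ⟨(zf b.2.2.2.1 - b.1.1), (zf b.2.2.2.1 - b.1.1), fun t h => Or.inl (by
    have h := congrArg Prod.fst h
    exact eq_sub_of_add_eq h)⟩

theorem c47 (P : ℕ) [NeZero P] : Few P (fun b : Blk P => bvar b 4 = bvar b 7) :=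
  L_2 _ fun b => ⟨(rf b.2.2.2.1 - b.1.1), (rf b.2.2.2.1 - b.1.1), fun t h => Or.inl (by
    have h := congrArg Prod.fst h
    exact eq_sub_of_add_eq h)⟩

theorem c48 (P : ℕ) [NeZero P] : Few P (fun b : Blk P => bvar b 4 = bvar b 8) :=
  L_2 _ fun b => ⟨(rf b.2.2.2.1 - b.1.1), (rf b.2.2.2.1 - b.1.1), fun t h => Or.inl (by
    have h := congrArg Prod.fst h
    exact eq_sub_of_add_eq h)⟩

theorem c49 (P : ℕ) [NeZero P] : Few P (fun b : Blk P => bvar b 4 = bvar b 9) :=
  L_2 _ fun b => ⟨(b.2.2.2.1 - b.1.1), (b.2.2.2.1 - b.1.1), fun t h => Or.inl (by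
    have h := congrArg Prod.fst h
    exact eq_sub_of_add_eq h)⟩

theorem c56 (P : ℕ) [NeZero P] : Few P (fun b : Blk P => bvar b 5 = bvar b 6) :=
  few_false _ fun b h => Bool.false_ne_true (congrArg Prod.snd h)

theorem c57 (P : ℕ) [NeZero P] (hP : 3 ≤ P) : Few P (fun b : Blk P => bvar b 5 = bvar b 7) :=
  few_false _ fun b h => zf_ne_rf hP _ (congrArg Prod.fst h)

theorem c58 (P : ℕ) [NeZero P] : Few P (fun b : Blk P => bvar b 5 = bvar b 8) :=
  few_false _ fun b h => Bool.false_ne_true (congrArg Prod.snd h)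

theorem c59 (P : ℕ) [NeZero P] : Few P (fun b : Blk P => bvar b 5 = bvar b 9) :=
  L_p _ fun b => ⟨0, 0, fun t h => Or.inl (zf_self (congrArg Prod.fst h))⟩

theorem c67 (P : ℕ) [NeZero P] : Few P (fun b : Blk P => bvar b 6 = bvar b 7) :=
  few_false _ fun b h => Bool.false_ne_true (congrArg Prod.snd h).symm

theorem c68 (P : ℕ) [NeZero P] (hP : 3 ≤ P) : Few P (fun b : Blk P => bvar b 6 = bvar b 8) :=
  few_false _ fun b h => zf_ne_rf hP _ (congrArg Prod.fst h)

theorem c69 (P : ℕ) [NeZero P] : Few P (fun b : Blk P => bvar b 6 = bvar b 9) :=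
  L_p _ fun b => ⟨0, 0, fun t h => Or.inl (zf_self (congrArg Prod.fst h))⟩

theorem c78 (P : ℕ) [NeZero P] : Few P (fun b : Blk P => bvar b 7 = bvar b 8) :=
  few_false _ fun b h => Bool.false_ne_true (congrArg Prod.snd h)

theorem c79 (P : ℕ) [NeZero P] : Few P (fun b : Blk P => bvar b 7 = bvar b 9) :=
  L_p _ fun b => ⟨((P - 1 : ℕ) : ZMod P), ((P - 1 : ℕ) : ZMod P),
    fun t h => Or.inl (rf_self (congrArg Prod.fst h))⟩

theorem c89 (P : ℕ) [NeZero P] : Few P (fun b : Blk P => bvar b 8 = bvar b 9) :=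
  L_p _ fun b => ⟨((P - 1 : ℕ) : ZMod P), ((P - 1 : ℕ) : ZMod P),
    fun t h => Or.inl (rf_self (congrArg Prod.fst h))⟩

theorem few_symm {P : ℕ} [NeZero P] {r s : Fin 10} (h : Few P (fun b : Blk P => bvar b r = bvar b s)) :
    Few P (fun b : Blk P => bvar b s = bvar b r) := by
  have : (fun b : Blk P => bvar b s = bvar b r) = fun b : Blk P => bvar b r = bvar b s := by
    funext b
    exact propext eq_comm
  rw [this]
  exact h

theorem c_lt (P : ℕ) [NeZero P] (hP : 3 ≤ P) (r s : Fin 10) (h : r < s) :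
    Few P (fun b : Blk P => bvar b r = bvar b s) := by
  fin_cases r
  · fin_cases s
    · exact absurd h (by decide)
    · exact c01 P
    · exact c02 P
    · exact c03 P
    · exact c04 P
    · exact c05 P
    · exact c06 P
    · exact c07 P
    · exact c08 P
    · exact c09 P
  · fin_cases s
    · exact absurd h (by decide)
    · exact absurd h (by decide)
    · exact c12 P
    · exact c13 P
    · exact c14 P
    · exact c15 P
    · exact c16 P
    · exact c17 P
    · exact c18 P
    · exact c19 P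
  · fin_cases s
    · exact absurd h (by decide)
    · exact absurd h (by decide)
    · exact absurd h (by decide)
    · exact c23 P
    · exact c24 P
    · exact c25 P
    · exact c26 P
    · exact c27 P
    · exact c28 P
    · exact c29 P
  · fin_cases s
    · exact absurd h (by decide)
    · exact absurd h (by decide)
    · exact absurd h (by decide)
    · exact absurd h (by decide)
    · exact c34 P
    · exact c35 P
    · exact c36 P
    · exact c37 P
    · exact c38 P
    · exact c39 P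
  · fin_cases s
    · exact absurd h (by decide)
    · exact absurd h (by decide)
    · exact absurd h (by decide)
    · exact absurd h (by decide)
    · exact absurd h (by decide)
    · exact c45 P
    · exact c46 P
    · exact c47 P
    · exact c48 P
    · exact c49 P
  · fin_cases s
    · exact absurd h (by decide)
    · exact absurd h (by decide)
    · exact absurd h (by decide)
    · exact absurd h (by decide)
    · exact absurd h (by decide)
    · exact absurd h (by decide)
    · exact c56 P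
    · exact c57 P hP
    · exact c58 P
    · exact c59 P
  · fin_cases s
    · exact absurd h (by decide)
    · exact absurd h (by decide)
    · exact absurd h (by decide)
    · exact absurd h (by decide)
    · exact absurd h (by decide)
    · exact absurd h (by decide)
    · exact absurd h (by decide)
    · exact c67 P
    · exact c68 P hP
    · exact c69 P
  · fin_cases s
    · exact absurd h (by decide)
    · exact absurd h (by decide)
    · exact absurd h (by decide)
    · exact absurd h (by decide)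
    · exact absurd h (by decide)
    · exact absurd h (by decide)
    · exact absurd h (by decide)
    · exact absurd h (by decide)
    · exact c78 P
    · exact c79 P
  · fin_cases s
    · exact absurd h (by decide)
    · exact absurd h (by decide)
    · exact absurd h (by decide)
    · exact absurd h (by decide)
    · exact absurd h (by decide)
    · exact absurd h (by decide)
    · exact absurd h (by decide)
    · exact absurd h (by decide)
    · exact absurd h (by decide)
    · exact c89 P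
  · fin_cases s
    · exact absurd h (by decide)
    · exact absurd h (by decide)
    · exact absurd h (by decide)
    · exact absurd h (by decide)
    · exact absurd h (by decide)
    · exact absurd h (by decide)
    · exact absurd h (by decide)
    · exact absurd h (by decide)
    · exact absurd h (by decide)
    · exact absurd h (by decide)

theorem c_all (P : ℕ) [NeZero P] (hP : 3 ≤ P) (r s : Fin 10) (h : r ≠ s) :
    Few P (fun b : Blk P => bvar b r = bvar b s) := by
  rcases lt_or_gt_of_ne h with h1 | h1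
  · exact c_lt P hP r s h1
  · exact few_symm (c_lt P hP s r h1)

/-! ### tuples of blocks -/

theorem card_blk (P : ℕ) [NeZero P] : Fintype.card (Blk P) = 64 * P ^ 4 := by
  simp only [Fintype.card_prod, ZMod.card, Fintype.card_bool]
  ring

theorem tup {P n : ℕ} [NeZero P] (i : Fin (n + 1)) (Q : (Fin (n + 1) → Blk P) → Prop)
    [DecidablePred Q] (hQ : ∀ b, Few P (fun x => Q (Function.update b i x))) :
    (univ.filter Q).card * P ≤ 2 * Fintype.card (Blk P) ^ (n + 1) := by
  have h := lens (fun b : Fin (n + 1) → Blk P => b i) (fun b x => Function.update b i x)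
    (fun b t => Function.update_self i t b) (fun b t t' => by rw [Function.update_idem])
    (fun b => Function.update_eq_self i b) Q P (2 * Fintype.card (Blk P)) (fun b => by
      have h1 := hQ b
      unfold Few at h1
      refine le_trans (le_of_eq ?_) h1
      congr 2
      ext t
      simp only [mem_filter, mem_univ, true_and])
  have hpos : 0 < Fintype.card (Blk P) := Fintype.card_pos
  rw [Fintype.card_fun, Fintype.card_fin] at h
  refine Nat.le_of_mul_le_mul_left (c := Fintype.card (Blk P)) ?_ hpos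
  calc Fintype.card (Blk P) * ((univ.filter Q).card * P) =
      (univ.filter Q).card * Fintype.card (Blk P) * P := by ring
    _ ≤ 2 * Fintype.card (Blk P) * Fintype.card (Blk P) ^ (n + 1) := h
    _ = Fintype.card (Blk P) * (2 * Fintype.card (Blk P) ^ (n + 1)) := by ring

theorem pair {P n : ℕ} [NeZero P] (hP : 3 ≤ P) (k k' : Fin ((n + 1) * 10)) (hk : k ≠ k') :
    (univ.filter fun b : Fin (n + 1) → Blk P => tvar b k = tvar b k').card * P ≤
      2 * Fintype.card (Blk P) ^ (n + 1) := by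
  by_cases hi : (finProdFinEquiv.symm k).1 = (finProdFinEquiv.symm k').1
  · have hr : (finProdFinEquiv.symm k).2 ≠ (finProdFinEquiv.symm k').2 := by
      intro h
      exact hk (finProdFinEquiv.symm.injective (Prod.ext hi h))
    refine tup (finProdFinEquiv.symm k).1 _ fun b => ?_
    unfold tvar
    rw [← hi]
    simp only [Function.update_self]
    exact c_all P hP _ _ hr
  · refine tup (finProdFinEquiv.symm k).1 _ fun b => ?_
    unfold tvar
    simp only [Function.update_self, Function.update_of_ne (Ne.symm hi)]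
    exact v_all P _ _

theorem t_inj : S_inj := by
  classical
  intro P n _ _ hP
  have h1 : {b : Fin (n + 1) → Blk P | ¬ Function.Injective (tvar b)} ⊆
      ((univ.filter fun p : Fin ((n + 1) * 10) × Fin ((n + 1) * 10) => p.1 ≠ p.2).biUnion
        fun p => univ.filter fun b : Fin (n + 1) → Blk P => tvar b p.1 = tvar b p.2 :
        Finset (Fin (n + 1) → Blk P)) := by
    intro b hb
    have hb' : ¬ Function.Injective (tvar b) := hb
    unfold Function.Injective at hb'
    push Not at hb'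
    obtain ⟨k, k', h, hne⟩ := hb'
    rw [mem_coe]
    exact mem_biUnion.mpr ⟨(k, k'), mem_filter.mpr ⟨mem_univ _, hne⟩,
      mem_filter.mpr ⟨mem_univ _, h⟩⟩
  have h2 := Set.ncard_le_ncard h1 (Finset.finite_toSet _)
  rw [Set.ncard_coe_finset] at h2
  have h3 := h2.trans card_biUnion_le
  have h4 : Set.ncard {b : Fin (n + 1) → Blk P | ¬ Function.Injective (tvar b)} * P ≤
      2 * (10 * (n + 1)) ^ 2 * (64 * P ^ 4) ^ (n + 1) := by
    calc Set.ncard {b : Fin (n + 1) → Blk P | ¬ Function.Injective (tvar b)} * P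
        ≤ (∑ p ∈ univ.filter fun p : Fin ((n + 1) * 10) × Fin ((n + 1) * 10) => p.1 ≠ p.2,
          (univ.filter fun b : Fin (n + 1) → Blk P => tvar b p.1 = tvar b p.2).card) * P :=
          Nat.mul_le_mul_right _ h3
      _ = ∑ p ∈ univ.filter fun p : Fin ((n + 1) * 10) × Fin ((n + 1) * 10) => p.1 ≠ p.2,
          (univ.filter fun b : Fin (n + 1) → Blk P => tvar b p.1 = tvar b p.2).card * P := by
          rw [sum_mul]
      _ ≤ ∑ p ∈ univ.filter fun p : Fin ((n + 1) * 10) × Fin ((n + 1) * 10) => p.1 ≠ p.2,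
          2 * Fintype.card (Blk P) ^ (n + 1) :=
          sum_le_sum fun p hp => pair hP p.1 p.2 (mem_filter.mp hp).2
      _ = (univ.filter fun p : Fin ((n + 1) * 10) × Fin ((n + 1) * 10) => p.1 ≠ p.2).card *
          (2 * Fintype.card (Blk P) ^ (n + 1)) := by rw [sum_const, smul_eq_mul]
      _ ≤ (10 * (n + 1)) ^ 2 * (2 * Fintype.card (Blk P) ^ (n + 1)) := by
          refine Nat.mul_le_mul_right _ ?_
          refine (card_filter_le _ _).trans (le_of_eq ?_)
          rw [card_univ, Fintype.card_prod, Fintype.card_fin]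
          ring
      _ = 2 * (10 * (n + 1)) ^ 2 * (64 * P ^ 4) ^ (n + 1) := by rw [card_blk]; ring
  exact_mod_cast h4

end Pool.Agent.H100.CS
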